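import Pool.Agent.Helper96_LAX.Stmts

/-!
# Squad LAX: module ANA (solution of the recursion).
-/

set_option autoImplicit false

namespace Pool.Agent.LAX.H37

/-- The error function. -/
noncomputable def hh (k : ℕ) : ℝ := ((k : ℝ) * (1 + Real.log k) ^ 2) ^ ((1 : ℝ) / 3)

lemma hh_cube (k : ℕ) : hh k ^ 3 = (k : ℝ) * (1 + Real.log k) ^ 2 := by
  unfold hh
  rw [← Real.rpow_natCast, ← Real.rpow_mul (by positivity)]
  norm_num

lemma hh_nonneg (k : ℕ) : 0 ≤ hh k := by
  unfold hh
  positivity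

lemma hh_one_le (k : ℕ) (hk : 1 ≤ k) : 1 ≤ hh k := by
  rw [← pow_le_pow_iff_left₀ zero_le_one (hh_nonneg k) (n := 3) (by norm_num), hh_cube]
  have h1 : (1 : ℝ) ≤ k := by exact_mod_cast hk
  have h2 : 0 ≤ Real.log k := Real.log_nonneg h1
  nlinarith [mul_nonneg (by linarith : (0 : ℝ) ≤ k) (mul_nonneg h2 h2),
    mul_nonneg (by linarith : (0 : ℝ) ≤ k) h2]

lemma log_bound (k : ℕ) (hk : 1 ≤ k) : (Real.log k + 3) ^ 2 ≤ 9 * (k : ℝ) := by
  have h1 : (1 : ℝ) ≤ k := by exact_mod_cast hk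
  have h2 : 0 ≤ Real.log k := Real.log_nonneg h1
  have h3 : 1 ≤ √(k : ℝ) := by
    rw [Real.one_le_sqrt]
    exact h1
  have h4 : Real.log (√(k : ℝ)) ≤ √(k : ℝ) - 1 := Real.log_le_sub_one_of_pos (by linarith)
  rw [Real.log_sqrt (by linarith)] at h4
  have h5 : Real.log k + 3 ≤ 3 * √(k : ℝ) := by linarith
  calc (Real.log k + 3) ^ 2 ≤ (3 * √(k : ℝ)) ^ 2 := pow_le_pow_left₀ (by linarith) h5 2
    _ = 9 * (k : ℝ) := by
      rw [mul_pow, Real.sq_sqrt (by linarith)]
      norm_num

/-- ANA. -/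
theorem ana : AnaStmt := by
  intro Q k₀ c hQ hR
  -- we may assume that `c` is nonnegative
  obtain ⟨c', hc', hcc⟩ : ∃ c' : ℝ, 0 ≤ c' ∧ c ≤ c' := ⟨max c 0, le_max_right _ _, le_max_left _ _⟩
  obtain ⟨c₁, hc₁, hc₁'⟩ : ∃ c₁ : ℝ, 0 ≤ c₁ ∧ c₁ ^ 3 = 9 * c' := by
    refine ⟨(9 * c') ^ ((1 : ℝ) / 3), by positivity, ?_⟩
    rw [← Real.rpow_natCast, ← Real.rpow_mul (by positivity)]
    norm_num
  obtain ⟨k₁, hk₁⟩ : ∃ k₁ : ℕ, 9 * 32 ^ 3 * c' ≤ k₁ := exists_nat_ge _
  obtain ⟨C, hC1, hC2⟩ : ∃ C : ℝ, 96 * c₁ ≤ C ∧ ((k₀ + k₁ + 1 : ℕ) : ℝ) ≤ C :=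
    ⟨max (96 * c₁) ((k₀ + k₁ + 1 : ℕ) : ℝ), le_max_left _ _, le_max_right _ _⟩
  refine ⟨C, fun k => ?_⟩
  have hC0 : 0 ≤ C := le_trans (by positivity) hC2
  induction k using Nat.strong_induction_on with
  | _ k ih =>
    intro hk
    have hkr : (1 : ℝ) ≤ k := by exact_mod_cast hk
    have hlog : 0 ≤ Real.log k := Real.log_nonneg hkr
    by_cases hbig : k < k₀ + k₁ + 1
    · -- small values
      refine ⟨2 * k, hQ k, ?_⟩
      have h1 := hh_one_le k hk
      have h2 : (k : ℝ) ≤ ((k₀ + k₁ + 1 : ℕ) : ℝ) := by exact_mod_cast hbig.le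
      have h3 : (k : ℝ) ≤ C * hh k := by
        calc (k : ℝ) ≤ C * 1 := by linarith
          _ ≤ C * hh k := mul_le_mul_of_nonneg_left h1 hC0
      have h4 : ((2 * k : ℕ) : ℝ) = 2 * k := by push_cast; ring
      rw [h4]
      change 2 * (k : ℝ) ≤ k + C * hh k
      linarith
    · push Not at hbig
      obtain ⟨q, err, hq1, hq2, herr, hrec⟩ := hR k (by omega)
      have hk1r : (k₁ : ℝ) ≤ k := by exact_mod_cast (by omega : k₁ ≤ k)
      have herr' : (err : ℝ) ^ 3 ≤ c' * k * (Real.log k + 3) ^ 2 := by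
        refine herr.trans ?_
        have : c * k ≤ c' * k := mul_le_mul_of_nonneg_right hcc (by linarith)
        exact mul_le_mul_of_nonneg_right this (by positivity)
      -- the error term is at most `k / 32`
      have herr1 : (err : ℝ) ≤ k / 32 := by
        rw [← pow_le_pow_iff_left₀ (by positivity) (by positivity) (n := 3) (by norm_num)]
        refine herr'.trans ?_
        calc c' * k * (Real.log k + 3) ^ 2 ≤ c' * k * (9 * k) :=
              mul_le_mul_of_nonneg_left (log_bound k hk) (by positivity)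
          _ = (9 * 32 ^ 3 * c') * (k ^ 2 / 32 ^ 3) := by ring
          _ ≤ k * (k ^ 2 / 32 ^ 3) :=
              mul_le_mul_of_nonneg_right (hk₁.trans hk1r) (by positivity)
          _ = (k / 32 : ℝ) ^ 3 := by ring
      have herr2 : (err : ℝ) ≤ c₁ * hh k := by
        rw [← pow_le_pow_iff_left₀ (by positivity) (mul_nonneg hc₁ (hh_nonneg k)) (n := 3)
          (by norm_num), mul_pow, hh_cube, hc₁']
        refine herr'.trans ?_
        have h1 : (Real.log k + 3) ^ 2 ≤ 9 * (1 + Real.log k) ^ 2 := by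
          nlinarith
        calc c' * k * (Real.log k + 3) ^ 2 ≤ c' * k * (9 * (1 + Real.log k) ^ 2) :=
              mul_le_mul_of_nonneg_left h1 (by positivity)
          _ = 9 * c' * (k * (1 + Real.log k) ^ 2) := by ring
      have hq1r : (k : ℝ) ≤ 16 * q := by exact_mod_cast hq1
      have hk' : ((k - q + err : ℕ) : ℝ) = k - q + err := by
        push_cast [Nat.cast_sub hq2]
        ring
      have hle : ((k - q + err : ℕ) : ℝ) ≤ 31 / 32 * k := by
        rw [hk']
        linarith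
      by_cases h0 : k - q + err = 0
      · -- nothing is left
        refine ⟨q + 0, hrec 0 ?_, ?_⟩
        · rw [h0]
          exact hQ 0
        · have h1 : (q : ℝ) ≤ k := by exact_mod_cast hq2
          have h2 : 0 ≤ C * hh k := mul_nonneg hC0 (hh_nonneg k)
          rw [add_zero]
          change (q : ℝ) ≤ k + C * hh k
          linarith
      · have hlt : k - q + err < k := by
          have : ((k - q + err : ℕ) : ℝ) < k := by linarith
          exact_mod_cast this
        obtain ⟨n, hn1, hn2⟩ := ih _ hlt (by omega)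
        refine ⟨q + n, hrec n hn1, ?_⟩
        change (n : ℝ) ≤ ((k - q + err : ℕ) : ℝ) + C * hh (k - q + err) at hn2
        change ((q + n : ℕ) : ℝ) ≤ k + C * hh k
        have hh1 : hh (k - q + err) ≤ (1 - 1 / 96) * hh k := by
          rw [← pow_le_pow_iff_left₀ (hh_nonneg _) (mul_nonneg (by norm_num) (hh_nonneg k))
            (n := 3) (by norm_num), mul_pow, hh_cube, hh_cube]
          have h1 : (1 : ℝ) ≤ ((k - q + err : ℕ) : ℝ) := by
            exact_mod_cast (by omega : 1 ≤ k - q + err)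
          have h2 : 0 ≤ Real.log ((k - q + err : ℕ) : ℝ) := Real.log_nonneg h1
          have h3 : Real.log ((k - q + err : ℕ) : ℝ) ≤ Real.log k :=
            Real.log_le_log (by linarith) (by linarith)
          have h4 : (1 + Real.log ((k - q + err : ℕ) : ℝ)) ^ 2 ≤ (1 + Real.log k) ^ 2 :=
            pow_le_pow_left₀ (by linarith) (by linarith) 2
          calc ((k - q + err : ℕ) : ℝ) * (1 + Real.log ((k - q + err : ℕ) : ℝ)) ^ 2
              ≤ (31 / 32 * k) * (1 + Real.log k) ^ 2 :=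
                mul_le_mul hle h4 (by positivity) (by positivity)
            _ = 31 / 32 * (k * (1 + Real.log k) ^ 2) := by ring
            _ ≤ (1 - 1 / 96) ^ 3 * (k * (1 + Real.log k) ^ 2) :=
                mul_le_mul_of_nonneg_right (by norm_num) (by positivity)
        have hh2 : C * hh (k - q + err) ≤ C * ((1 - 1 / 96) * hh k) :=
          mul_le_mul_of_nonneg_left hh1 hC0
        have hh3 : 96 * c₁ * hh k ≤ C * hh k := mul_le_mul_of_nonneg_right hC1 (hh_nonneg k)
        rw [hk'] at hn2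
        push_cast
        nlinarith
end Pool.Agent.LAX.H37
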